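import Mathlib

/-!
# The generalized Bykovskii presentation fails for `ℤ[√3]`
-/

namespace Pool.Agent.Results.MP_b7d0e6_al.SqrtThree

open Module

/-! ### Reduced homology of the Tits building and the Steinberg module -/

section Building

variable (K : Type*) [Field K] (n : ℕ)

/-- Strictly increasing chains `W_0 < ⋯ < W_{m-1}` of `m` nonzero proper subspaces of `K^n`, that
is, the `(m-1)`-dimensional simplices of the Tits building `T_n(K)`. -/
@[ext]
structure Chain (m : ℕ) where
  /-- The subspaces of the chain. -/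
  space : Fin m → Submodule K (Fin n → K)
  strictMono : StrictMono space
  ne_bot : ∀ i, space i ≠ ⊥
  ne_top : ∀ i, space i ≠ ⊤

variable {K n} in
/-- The chain obtained by deleting the `i`-th subspace. -/
def Chain.face {m : ℕ} (c : Chain K n (m + 1)) (i : Fin (m + 1)) : Chain K n m where
  space j := c.space (i.succAbove j)
  strictMono _ _ h := c.strictMono (Fin.strictMono_succAbove i h)
  ne_bot _ := c.ne_bot _
  ne_top _ := c.ne_top _

variable {K n} in
/-- The simplicial boundary of a chain of `m + 1` subspaces. -/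
noncomputable def Chain.boundary {m : ℕ} (c : Chain K n (m + 1)) : FreeAbelianGroup (Chain K n m) :=
  ∑ i : Fin (m + 1), (-1 : ℤ) ^ (i : ℕ) • FreeAbelianGroup.of (c.face i)

/-- The simplicial boundary map of the Tits building `T_n(K)`, from the free abelian group on
chains of `m + 1` subspaces to the free abelian group on chains of `m` subspaces (for `m = 0` it is
the augmentation). -/
noncomputable def boundary (m : ℕ) :
    FreeAbelianGroup (Chain K n (m + 1)) →+ FreeAbelianGroup (Chain K n m) :=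
  FreeAbelianGroup.lift Chain.boundary

/-- Reduced cycles in the group of chains of `m` subspaces. -/
noncomputable def cycles : (m : ℕ) → AddSubgroup (FreeAbelianGroup (Chain K n m))
  | 0 => ⊤
  | (m + 1) => (boundary K n m).ker

/-- Boundaries in the group of chains of `m` subspaces. -/
noncomputable def boundaries (m : ℕ) : AddSubgroup (FreeAbelianGroup (Chain K n m)) :=
  (boundary K n m).range

/-- The reduced homology group `H̃_{m-1}(T_n(K); ℤ)`. -/
def ReducedHomology (m : ℕ) : Type _ :=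
  cycles K n m ⧸ (boundaries K n m).addSubgroupOf (cycles K n m)

noncomputable instance (m : ℕ) : AddCommGroup (ReducedHomology K n m) :=
  QuotientAddGroup.Quotient.addCommGroup _

variable {K n} in
/-- The homology class of a cycle. -/
noncomputable def homologyClass {m : ℕ} (z : FreeAbelianGroup (Chain K n m)) (hz : z ∈ cycles K n m) :
    ReducedHomology K n m :=
  QuotientAddGroup.mk ⟨z, hz⟩

variable {K n} in
lemma homologyClass_add {m : ℕ} {z w : FreeAbelianGroup (Chain K n m)} (hz : z ∈ cycles K n m)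
    (hw : w ∈ cycles K n m) :
    homologyClass z hz + homologyClass w hw = homologyClass (z + w) (add_mem hz hw) := rfl

variable {K n} in
lemma homologyClass_sub {m : ℕ} {z w : FreeAbelianGroup (Chain K n m)} (hz : z ∈ cycles K n m)
    (hw : w ∈ cycles K n m) :
    homologyClass z hz - homologyClass w hw = homologyClass (z - w) (sub_mem hz hw) := rfl

variable {K n} in
lemma homologyClass_zsmul {m : ℕ} {z : FreeAbelianGroup (Chain K n m)} (hz : z ∈ cycles K n m)
    (k : ℤ) : k • homologyClass z hz = homologyClass (k • z) (zsmul_mem hz k) := rfl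

variable {K n} in
lemma homologyClass_eq_zero {m : ℕ} {z : FreeAbelianGroup (Chain K n m)} (hz : z ∈ cycles K n m)
    (h : z = 0) : homologyClass z hz = 0 := by
  subst h; rfl

end Building

/-- The Steinberg module `St_{m+1}(K) = H̃_{m-1}(T_{m+1}(K); ℤ)`. -/
abbrev Steinberg (K : Type*) [Field K] (m : ℕ) : Type _ :=
  ReducedHomology K (m + 1) m

/-! ### The Bykovskii group -/

section Bykovskii

variable (O : Type*) [CommRing O]

/-- The symbols `[[v_1, …, v_n]]`: ordered bases of `O^n`. -/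
abbrev Symb (n : ℕ) : Type _ := Basis (Fin n) O (Fin n → O)

/-- Relation 1: `[[v]] = sgn(σ) [[v ∘ σ]]`. -/
def relPerm (n : ℕ) : Set (FreeAbelianGroup (Symb O n)) :=
  {x | ∃ (b b' : Symb O n) (σ : Equiv.Perm (Fin n)), (∀ i, b' i = b (σ i)) ∧
    x = FreeAbelianGroup.of b - (Equiv.Perm.sign σ : ℤ) • FreeAbelianGroup.of b'}

/-- Relation 2: `[[v_1, v_2, …, v_n]] = [[u v_1, v_2, …, v_n]]` for every unit `u`. -/
def relUnit (n : ℕ) : Set (FreeAbelianGroup (Symb O n)) :=
  {x | ∃ (b b' : Symb O n) (u : Oˣ) (i₀ : Fin n), i₀.val = 0 ∧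
    (⇑b' : Fin n → Fin n → O) = Function.update b i₀ ((u : O) • b i₀) ∧
    x = FreeAbelianGroup.of b - FreeAbelianGroup.of b'}

/-- Relation 3: `[[v_1, v_2, v_3, …]] - [[v_1 + v_2, v_2, v_3, …]] + [[v_1 + v_2, v_1, v_3, …]]
= 0`. -/
def relSum (n : ℕ) : Set (FreeAbelianGroup (Symb O n)) :=
  {x | ∃ (b b' b'' : Symb O n) (i₀ i₁ : Fin n), i₀.val = 0 ∧ i₁.val = 1 ∧
    (⇑b' : Fin n → Fin n → O) = Function.update b i₀ (b i₀ + b i₁) ∧
    (⇑b'' : Fin n → Fin n → O) =
      Function.update (Function.update b i₀ (b i₀ + b i₁)) i₁ (b i₀) ∧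
    x = FreeAbelianGroup.of b - FreeAbelianGroup.of b' + FreeAbelianGroup.of b''}

/-- The subgroup of relations of the Bykovskii group. -/
noncomputable def relations (n : ℕ) : AddSubgroup (FreeAbelianGroup (Symb O n)) :=
  AddSubgroup.closure (relPerm O n ∪ relUnit O n ∪ relSum O n)

/-- The group `Byk_n(O)`. -/
def Byk (n : ℕ) : Type _ := FreeAbelianGroup (Symb O n) ⧸ relations O n

noncomputable instance (n : ℕ) : AddCommGroup (Byk O n) :=
  QuotientAddGroup.Quotient.addCommGroup _

/-- The quotient map onto `Byk_n(O)`. -/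
noncomputable def bykClass (n : ℕ) : (FreeAbelianGroup (Symb O n)) →+ Byk O n := QuotientAddGroup.mk' (relations O n)

lemma bykClass_eq_zero_iff {n : ℕ} {z : FreeAbelianGroup (Symb O n)} :
    bykClass O n z = 0 ↔ z ∈ relations O n :=
  QuotientAddGroup.eq_zero_iff z

end Bykovskii

/-! ### Apartments -/

section Apartment

variable {O : Type*} [CommRing O] (K : Type*) [Field K] [Algebra O K]
  [IsFractionRing O K]

/-- The vector of `K^n` given by a vector of `O^n`. -/
def toK {n : ℕ} (v : Fin n → O) : Fin n → K := fun k => algebraMap O K (v k)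

omit [IsFractionRing O K] in
lemma toK_add {n : ℕ} (v w : Fin n → O) : toK K (v + w) = toK K v + toK K w := by
  funext k; simp [toK]

omit [IsFractionRing O K] in
lemma toK_smul {n : ℕ} (a : O) (v : Fin n → O) :
    toK K (a • v) = algebraMap O K a • toK K v := by
  funext k; simp [toK]

lemma linearIndependent_toK {n : ℕ} (b : Symb O n) :
    LinearIndependent K fun j => toK K (b j) := by
  have h1 : LinearIndependent O (⇑b) := b.linearIndependent
  let f : (Fin n → O) →ₗ[O] (Fin n → K) :=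
    { toFun := toK K
      map_add' := toK_add K
      map_smul' := by
        intro a v
        rw [toK_smul]
        funext k
        simp [Algebra.smul_def] }
  have hf : Function.Injective f := by
    intro v w h
    funext k
    have := congrFun h k
    exact IsFractionRing.injective O K this
  have h2 : LinearIndependent O (f ∘ ⇑b) := h1.map_injOn f (hf.injOn)
  exact LinearIndependent.localization K (nonZeroDivisors O) h2

/-- The span of the vectors of a basis with indices in a set. -/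
def spanOn {n : ℕ} (b : Symb O n) (T : Set (Fin n)) : Submodule K (Fin n → K) :=
  Submodule.span K ((fun j => toK K (b j)) '' T)

lemma not_mem_spanOn {n : ℕ} (b : Symb O n) {T : Set (Fin n)} {j : Fin n} (hj : j ∉ T) :
    toK K (b j) ∉ spanOn K b T :=
  (linearIndependent_toK K b).notMem_span_image hj

omit [IsFractionRing O K] in
lemma mem_spanOn {n : ℕ} (b : Symb O n) {T : Set (Fin n)} {j : Fin n} (hj : j ∈ T) :
    toK K (b j) ∈ spanOn K b T :=
  Submodule.subset_span ⟨j, hj, rfl⟩

/-- The `i`-th member of the full flag attached to an ordered basis `b` and a permutation `σ`: the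
span of `b (σ 0), …, b (σ i)`. -/
def flagSpan {m : ℕ} (b : Symb O (m + 1)) (σ : Equiv.Perm (Fin (m + 1))) (i : Fin m) :
    Submodule K (Fin (m + 1) → K) :=
  spanOn K b (σ '' Set.Iic i.castSucc)

lemma flagSpan_strictMono {m : ℕ} (b : Symb O (m + 1)) (σ : Equiv.Perm (Fin (m + 1))) :
    StrictMono (flagSpan K b σ) := by
  intro i j hij
  refine lt_of_le_of_ne ?_ ?_
  · apply Submodule.span_mono
    apply Set.image_mono
    apply Set.image_mono
    exact Set.Iic_subset_Iic.mpr (Fin.castSucc_le_castSucc_iff.mpr hij.le)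
  · intro h
    have hmem : toK K (b (σ j.castSucc)) ∈ flagSpan K b σ i := by
      rw [h]
      exact mem_spanOn K b ⟨j.castSucc, Set.mem_Iic.mpr le_rfl, rfl⟩
    refine not_mem_spanOn K b ?_ hmem
    rintro ⟨k, hk, hk'⟩
    have := σ.injective hk'
    subst this
    exact absurd (Set.mem_Iic.mp hk) (not_le.mpr (Fin.castSucc_lt_castSucc_iff.mpr hij))

lemma flagSpan_ne_bot {m : ℕ} (b : Symb O (m + 1)) (σ : Equiv.Perm (Fin (m + 1))) (i : Fin m) :
    flagSpan K b σ i ≠ ⊥ := by
  intro h
  have hmem : toK K (b (σ i.castSucc)) ∈ flagSpan K b σ i :=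
    mem_spanOn K b ⟨i.castSucc, Set.mem_Iic.mpr le_rfl, rfl⟩
  rw [h, Submodule.mem_bot] at hmem
  exact (linearIndependent_toK K b).ne_zero _ hmem

lemma flagSpan_ne_top {m : ℕ} (b : Symb O (m + 1)) (σ : Equiv.Perm (Fin (m + 1))) (i : Fin m) :
    flagSpan K b σ i ≠ ⊤ := by
  intro h
  have hmem : toK K (b (σ (Fin.last m))) ∈ flagSpan K b σ i := by
    rw [h]; trivial
  refine not_mem_spanOn K b ?_ hmem
  rintro ⟨k, hk, hk'⟩
  have := σ.injective hk'
  subst this
  exact absurd (Set.mem_Iic.mp hk) (not_le.mpr (Fin.castSucc_lt_last i))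

/-- The full flag attached to an ordered basis `b` and a permutation `σ`: its `i`-th member is
spanned by `b (σ 0), …, b (σ i)`. -/
def flag {m : ℕ} (b : Symb O (m + 1)) (σ : Equiv.Perm (Fin (m + 1))) :
    Chain K (m + 1) m where
  space := flagSpan K b σ
  strictMono := flagSpan_strictMono K b σ
  ne_bot := flagSpan_ne_bot K b σ
  ne_top := flagSpan_ne_top K b σ

/-- The fundamental class of the apartment of an ordered basis, as a simplicial chain. -/
noncomputable def apartment {m : ℕ} (b : Symb O (m + 1)) : FreeAbelianGroup (Chain K (m + 1) m) :=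
  ∑ σ : Equiv.Perm (Fin (m + 1)), (Equiv.Perm.sign σ : ℤ) • FreeAbelianGroup.of (flag K b σ)


/-! ### The apartment is a cycle -/

lemma flag_ext {m : ℕ} {b b' : Symb O (m + 1)} {σ σ' : Equiv.Perm (Fin (m + 1))}
    (h : ∀ i : Fin m, spanOn K b (σ '' Set.Iic i.castSucc) =
      spanOn K b' (σ' '' Set.Iic i.castSucc)) : flag K b σ = flag K b' σ' :=
  Chain.ext (funext h)

lemma apartment_mem_cycles {m : ℕ} (b : Symb O (m + 1)) :
    apartment K b ∈ cycles K (m + 1) m := by
  cases m with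
  | zero => trivial
  | succ k =>
    show apartment K b ∈ (boundary K _ k).ker
    rw [AddMonoidHom.mem_ker, apartment, map_sum]
    simp only [map_zsmul, boundary, FreeAbelianGroup.lift_apply_of, Chain.boundary,
      Finset.smul_sum]
    rw [Finset.sum_comm]
    apply Finset.sum_eq_zero
    intro i _
    let t : Equiv.Perm (Fin (k + 2)) := Equiv.swap i.castSucc i.succ
    have hne : (i.castSucc : Fin (k + 2)) ≠ i.succ := (Fin.castSucc_lt_succ).ne
    have ht : t ≠ 1 := by
      intro h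
      have h1 : t i.castSucc = i.castSucc := by rw [h]; rfl
      rw [Equiv.swap_apply_left] at h1
      exact hne h1.symm
    refine Finset.sum_involution (fun σ _ => σ * t) ?_ ?_ ?_ ?_
    · intro σ _
      have hface : (flag K b (σ * t)).face i = (flag K b σ).face i := by
        apply Chain.ext
        funext j
        show spanOn K b ((σ * t) '' Set.Iic (i.succAbove j).castSucc) =
          spanOn K b (σ '' Set.Iic (i.succAbove j).castSucc)
        congr 1
        rw [Equiv.Perm.coe_mul, Set.image_comp]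
        congr 1
        have hj : i.succAbove j ≠ i := Fin.succAbove_ne i j
        have hmem : ∀ x : Fin (k + 2), x ∈ Set.Iic (i.succAbove j).castSucc →
            t x ∈ Set.Iic (i.succAbove j).castSucc := by
          intro x hx
          rw [Set.mem_Iic] at hx ⊢
          rcases lt_or_gt_of_ne hj with hlt | hgt
          · have hx1 : x ≠ i.castSucc := by
              intro h
              subst h
              exact absurd hx (not_le.mpr (Fin.castSucc_lt_castSucc_iff.mpr hlt))
            have hx2 : x ≠ i.succ := by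
              intro h
              subst h
              have : (i.castSucc : Fin (k + 2)) ≤ (i.succAbove j).castSucc :=
                le_trans (Fin.castSucc_lt_succ).le hx
              exact absurd this (not_le.mpr (Fin.castSucc_lt_castSucc_iff.mpr hlt))
            rw [Equiv.swap_apply_of_ne_of_ne hx1 hx2]
            exact hx
          · have h1 : (i.succ : Fin (k + 2)) ≤ (i.succAbove j).castSucc := by
              rw [Fin.le_iff_val_le_val]
              have : i.val < (i.succAbove j).val := hgt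
              simp only [Fin.val_succ, Fin.val_castSucc]
              omega
            have h2 : (i.castSucc : Fin (k + 2)) ≤ (i.succAbove j).castSucc :=
              le_trans (Fin.castSucc_lt_succ).le h1
            by_cases hx1 : x = i.castSucc
            · rw [hx1, Equiv.swap_apply_left]; exact h1
            · by_cases hx2 : x = i.succ
              · rw [hx2, Equiv.swap_apply_right]; exact h2
              · rw [Equiv.swap_apply_of_ne_of_ne hx1 hx2]; exact hx
        apply Set.Subset.antisymm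
        · rintro _ ⟨x, hx, rfl⟩
          exact hmem x hx
        · intro x hx
          exact ⟨t x, hmem x hx, Equiv.swap_apply_self _ _ _⟩
      rw [hface, Equiv.Perm.sign_mul, Equiv.Perm.sign_swap hne]
      simp
    · intro σ _ _ h
      apply ht
      have : σ * t = σ * 1 := by rw [h, mul_one]
      exact mul_left_cancel this
    · intro σ _
      exact Finset.mem_univ _
    · intro σ _
      show σ * t * t = σ
      rw [mul_assoc, Equiv.swap_mul_self, mul_one]

/-! ### The relations hold for apartments -/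

lemma apartment_perm {m : ℕ} (b b' : Symb O (m + 1)) (τ : Equiv.Perm (Fin (m + 1)))
    (h : ∀ i, b' i = b (τ i)) :
    apartment K b - (Equiv.Perm.sign τ : ℤ) • apartment K b' = 0 := by
  have hflag : ∀ σ : Equiv.Perm (Fin (m + 1)), flag K b' σ = flag K b (τ * σ) := by
    intro σ
    apply flag_ext
    intro i
    rw [Equiv.Perm.coe_mul, Set.image_comp]
    unfold spanOn
    rw [Set.image_image _ τ]
    simp only [h]
  have h1 : apartment K b = ∑ σ : Equiv.Perm (Fin (m + 1)),
      (Equiv.Perm.sign (τ * σ) : ℤ) • FreeAbelianGroup.of (flag K b (τ * σ)) :=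
    (Equiv.sum_comp (Equiv.mulLeft τ)
      (fun σ => (Equiv.Perm.sign σ : ℤ) • FreeAbelianGroup.of (flag K b σ))).symm
  rw [h1, apartment, Finset.smul_sum, ← Finset.sum_sub_distrib]
  apply Finset.sum_eq_zero
  intro σ _
  rw [hflag, Equiv.Perm.sign_mul, Units.val_mul, mul_smul, sub_self]

omit [IsFractionRing O K] in
lemma spanOn_congr {n : ℕ} {b b' : Symb O n} {T T' : Set (Fin n)}
    (h : ∀ j ∈ T, toK K (b j) ∈ spanOn K b' T') (h' : ∀ j ∈ T', toK K (b' j) ∈ spanOn K b T) :
    spanOn K b T = spanOn K b' T' := by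
  apply le_antisymm
  · apply Submodule.span_le.mpr
    rintro _ ⟨j, hj, rfl⟩
    exact h j hj
  · apply Submodule.span_le.mpr
    rintro _ ⟨j, hj, rfl⟩
    exact h' j hj

lemma apartment_unit {m : ℕ} (b b' : Symb O (m + 1)) (u : Oˣ) (i₀ : Fin (m + 1))
    (h : (⇑b' : Fin (m + 1) → Fin (m + 1) → O) = Function.update b i₀ ((u : O) • b i₀)) :
    apartment K b - apartment K b' = 0 := by
  have hb : ∀ j, j ≠ i₀ → b' j = b j := by
    intro j hj; rw [h, Function.update_of_ne hj]
  have hb0 : b' i₀ = (u : O) • b i₀ := by rw [h, Function.update_self]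
  have hflag : ∀ σ : Equiv.Perm (Fin (m + 1)), flag K b σ = flag K b' σ := by
    intro σ
    apply flag_ext
    intro i
    apply spanOn_congr
    · intro j hj
      by_cases hj0 : j = i₀
      · have h1 : b j = ((u⁻¹ : Oˣ) : O) • b' j := by
          rw [hj0, hb0, smul_smul, Units.inv_mul, one_smul]
        rw [h1, toK_smul]
        exact Submodule.smul_mem _ _ (mem_spanOn K b' hj)
      · rw [← hb j hj0]
        exact mem_spanOn K b' hj
    · intro j hj
      by_cases hj0 : j = i₀
      · rw [hj0, hb0, toK_smul]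
        rw [hj0] at hj
        exact Submodule.smul_mem _ _ (mem_spanOn K b hj)
      · rw [hb j hj0]
        exact mem_spanOn K b hj
  rw [sub_eq_zero]
  unfold apartment
  refine Finset.sum_congr rfl fun σ _ => ?_
  rw [hflag σ]

section Sum

variable {m : ℕ} {b b' b'' : Symb O (m + 1)} {i₀ i₁ : Fin (m + 1)}

omit [IsFractionRing O K] in
lemma spanOn_A (hne : i₀ ≠ i₁) (h0 : b' i₀ = b i₀ + b i₁) (h : ∀ j, j ≠ i₀ → b' j = b j)
    {T : Set (Fin (m + 1))} (hT : i₀ ∈ T → i₁ ∈ T) : spanOn K b T = spanOn K b' T := by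
  apply spanOn_congr
  · intro j hj
    by_cases hj0 : j = i₀
    · subst hj0
      have h1 : toK K (b j) = toK K (b' j) - toK K (b' i₁) := by
        rw [h0, h i₁ hne.symm, toK_add]; abel
      rw [h1]
      exact Submodule.sub_mem _ (mem_spanOn K b' hj) (mem_spanOn K b' (hT hj))
    · rw [← h j hj0]; exact mem_spanOn K b' hj
  · intro j hj
    by_cases hj0 : j = i₀
    · subst hj0
      rw [h0, toK_add]
      exact Submodule.add_mem _ (mem_spanOn K b hj) (mem_spanOn K b (hT hj))
    · rw [h j hj0]; exact mem_spanOn K b hj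

omit [IsFractionRing O K] in
lemma spanOn_B (hne : i₀ ≠ i₁) (h0 : b' i₀ = b i₀ + b i₁) (h : ∀ j, j ≠ i₀ → b' j = b j)
    (h0' : b'' i₀ = b i₀ + b i₁) (h1' : b'' i₁ = b i₀)
    (h' : ∀ j, j ≠ i₀ → j ≠ i₁ → b'' j = b j)
    {T : Set (Fin (m + 1))} (hT : i₁ ∈ T → i₀ ∈ T) : spanOn K b' T = spanOn K b'' T := by
  apply spanOn_congr
  · intro j hj
    by_cases hj0 : j = i₀
    · rw [hj0, h0, ← h0', ← hj0]; exact mem_spanOn K b'' hj
    · by_cases hj1 : j = i₁
      · subst hj1
        have h1 : toK K (b' j) = toK K (b'' i₀) - toK K (b'' j) := by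
          rw [h0', h1', h j hj0, toK_add]; abel
        rw [h1]
        exact Submodule.sub_mem _ (mem_spanOn K b'' (hT hj)) (mem_spanOn K b'' hj)
      · rw [h j hj0, ← h' j hj0 hj1]; exact mem_spanOn K b'' hj
  · intro j hj
    by_cases hj0 : j = i₀
    · rw [hj0, h0', ← h0, ← hj0]; exact mem_spanOn K b' hj
    · by_cases hj1 : j = i₁
      · subst hj1
        have h1 : toK K (b'' j) = toK K (b' i₀) - toK K (b' j) := by
          rw [h0, h1', h j hj0, toK_add]; abel
        rw [h1]
        exact Submodule.sub_mem _ (mem_spanOn K b' (hT hj)) (mem_spanOn K b' hj)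
      · rw [h' j hj0 hj1, ← h j hj0]; exact mem_spanOn K b' hj

omit [IsFractionRing O K] in
lemma spanOn_C
    (h0' : b'' i₀ = b i₀ + b i₁) (h1' : b'' i₁ = b i₀)
    (h' : ∀ j, j ≠ i₀ → j ≠ i₁ → b'' j = b j)
    {T : Set (Fin (m + 1))} (hT : i₁ ∈ T → i₀ ∈ T) :
    spanOn K b T = spanOn K b'' (Equiv.swap i₀ i₁ '' T) := by
  have hmem1 : ∀ j, j ∈ T → Equiv.swap i₀ i₁ j ∈ Equiv.swap i₀ i₁ '' T := fun j hj => ⟨j, hj, rfl⟩
  apply spanOn_congr
  · intro j hj
    by_cases hj0 : j = i₀
    · have h2 := hmem1 j hj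
      rw [hj0, Equiv.swap_apply_left] at h2
      rw [hj0, ← h1']
      exact mem_spanOn K b'' h2
    · by_cases hj1 : j = i₁
      · have h2 := hmem1 j hj
        rw [hj1, Equiv.swap_apply_right] at h2
        have h3 := hmem1 i₀ (hT (hj1 ▸ hj))
        rw [Equiv.swap_apply_left] at h3
        have h4 : toK K (b j) = toK K (b'' i₀) - toK K (b'' i₁) := by
          rw [h0', h1', hj1, toK_add]; abel
        rw [h4]
        exact Submodule.sub_mem _ (mem_spanOn K b'' h2) (mem_spanOn K b'' h3)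
      · have h2 := hmem1 j hj
        rw [Equiv.swap_apply_of_ne_of_ne hj0 hj1] at h2
        rw [← h' j hj0 hj1]
        exact mem_spanOn K b'' h2
  · rintro _ ⟨j, hj, rfl⟩
    by_cases hj0 : j = i₀
    · rw [hj0, Equiv.swap_apply_left, h1', ← hj0]
      exact mem_spanOn K b hj
    · by_cases hj1 : j = i₁
      · rw [hj1, Equiv.swap_apply_right, h0', toK_add]
        exact Submodule.add_mem _ (mem_spanOn K b (hT (hj1 ▸ hj))) (mem_spanOn K b (hj1 ▸ hj))
      · rw [Equiv.swap_apply_of_ne_of_ne hj0 hj1, h' j hj0 hj1]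
        exact mem_spanOn K b hj

lemma apartment_sum (hne : i₀ ≠ i₁)
    (h : (⇑b' : Fin (m + 1) → Fin (m + 1) → O) = Function.update b i₀ (b i₀ + b i₁))
    (h' : (⇑b'' : Fin (m + 1) → Fin (m + 1) → O) =
      Function.update (Function.update b i₀ (b i₀ + b i₁)) i₁ (b i₀)) :
    apartment K b - apartment K b' + apartment K b'' = 0 := by
  classical
  have e0 : b' i₀ = b i₀ + b i₁ := by rw [h, Function.update_self]
  have e : ∀ j, j ≠ i₀ → b' j = b j := by
    intro j hj; rw [h, Function.update_of_ne hj]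
  have f1 : b'' i₁ = b i₀ := by rw [h', Function.update_self]
  have f0 : b'' i₀ = b i₀ + b i₁ := by
    rw [h', Function.update_of_ne hne, Function.update_self]
  have f : ∀ j, j ≠ i₀ → j ≠ i₁ → b'' j = b j := by
    intro j hj hj1; rw [h', Function.update_of_ne hj1, Function.update_of_ne hj]
  -- membership in the image of an initial segment
  have hmem : ∀ (σ : Equiv.Perm (Fin (m + 1))) (i : Fin m) (j : Fin (m + 1)),
      j ∈ σ '' Set.Iic i.castSucc ↔ σ.symm j ≤ i.castSucc := by
    intro σ i j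
    constructor
    · rintro ⟨x, hx, rfl⟩
      rw [Equiv.symm_apply_apply]; exact hx
    · intro hx
      exact ⟨σ.symm j, hx, Equiv.apply_symm_apply _ _⟩
  have hA : ∀ σ : Equiv.Perm (Fin (m + 1)), σ.symm i₁ < σ.symm i₀ →
      flag K b σ = flag K b' σ := by
    intro σ hσ
    apply flag_ext
    intro i
    apply spanOn_A K hne e0 e
    rw [hmem, hmem]
    intro hx
    exact hσ.le.trans hx
  have hB : ∀ σ : Equiv.Perm (Fin (m + 1)), σ.symm i₀ < σ.symm i₁ →
      flag K b' σ = flag K b'' σ := by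
    intro σ hσ
    apply flag_ext
    intro i
    apply spanOn_B K hne e0 e f0 f1 f
    rw [hmem, hmem]
    intro hx
    exact hσ.le.trans hx
  have hC : ∀ σ : Equiv.Perm (Fin (m + 1)), σ.symm i₀ < σ.symm i₁ →
      flag K b σ = flag K b'' (Equiv.swap i₀ i₁ * σ) := by
    intro σ hσ
    apply flag_ext
    intro i
    rw [Equiv.Perm.coe_mul, Set.image_comp]
    apply spanOn_C K f0 f1 f
    rw [hmem, hmem]
    intro hx
    exact hσ.le.trans hx
  let P : Equiv.Perm (Fin (m + 1)) → Prop := fun σ => σ.symm i₀ < σ.symm i₁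
  have hP : ∀ σ, ¬ P σ → σ.symm i₁ < σ.symm i₀ := by
    intro σ hσ
    refine lt_of_le_of_ne (not_lt.mp hσ) ?_
    intro h
    exact hne (σ.symm.injective h.symm)
  have split : ∀ c : Symb O (m + 1), apartment K c =
      ∑ σ ∈ Finset.univ.filter P, (Equiv.Perm.sign σ : ℤ) • FreeAbelianGroup.of (flag K c σ) +
      ∑ σ ∈ Finset.univ.filter (fun σ => ¬ P σ),
        (Equiv.Perm.sign σ : ℤ) • FreeAbelianGroup.of (flag K c σ) := by
    intro c
    rw [Finset.sum_filter_add_sum_filter_not]
    rfl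
  have key : ∑ σ ∈ Finset.univ.filter (fun σ => ¬ P σ),
      (Equiv.Perm.sign σ : ℤ) • FreeAbelianGroup.of (flag K b'' σ) =
      - ∑ σ ∈ Finset.univ.filter P,
        (Equiv.Perm.sign σ : ℤ) • FreeAbelianGroup.of (flag K b σ) := by
    rw [← Finset.sum_neg_distrib]
    symm
    refine Finset.sum_bij (fun σ _ => Equiv.swap i₀ i₁ * σ) ?_ ?_ ?_ ?_
    · intro σ hσ
      rw [Finset.mem_filter] at hσ ⊢
      refine ⟨Finset.mem_univ _, ?_⟩
      show ¬ ((Equiv.swap i₀ i₁ * σ).symm i₀ < (Equiv.swap i₀ i₁ * σ).symm i₁)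
      have e1 : (Equiv.swap i₀ i₁ * σ).symm i₀ = σ.symm i₁ := by
        rw [Equiv.symm_apply_eq, Equiv.Perm.mul_apply, Equiv.apply_symm_apply,
          Equiv.swap_apply_right]
      have e2 : (Equiv.swap i₀ i₁ * σ).symm i₁ = σ.symm i₀ := by
        rw [Equiv.symm_apply_eq, Equiv.Perm.mul_apply, Equiv.apply_symm_apply,
          Equiv.swap_apply_left]
      rw [e1, e2]
      exact not_lt.mpr (le_of_lt hσ.2)
    · intro σ _ σ' _ h
      exact mul_left_cancel h
    · intro σ hσ
      rw [Finset.mem_filter] at hσ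
      refine ⟨Equiv.swap i₀ i₁ * σ, ?_, ?_⟩
      · rw [Finset.mem_filter]
        refine ⟨Finset.mem_univ _, ?_⟩
        show (Equiv.swap i₀ i₁ * σ).symm i₀ < (Equiv.swap i₀ i₁ * σ).symm i₁
        have e1 : (Equiv.swap i₀ i₁ * σ).symm i₀ = σ.symm i₁ := by
          rw [Equiv.symm_apply_eq, Equiv.Perm.mul_apply, Equiv.apply_symm_apply,
            Equiv.swap_apply_right]
        have e2 : (Equiv.swap i₀ i₁ * σ).symm i₁ = σ.symm i₀ := by
          rw [Equiv.symm_apply_eq, Equiv.Perm.mul_apply, Equiv.apply_symm_apply,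
            Equiv.swap_apply_left]
        rw [e1, e2]
        exact hP σ hσ.2
      · show Equiv.swap i₀ i₁ * (Equiv.swap i₀ i₁ * σ) = σ
        rw [← mul_assoc, Equiv.swap_mul_self, one_mul]
    · intro σ hσ
      rw [Finset.mem_filter] at hσ
      rw [hC σ hσ.2, Equiv.Perm.sign_mul, Equiv.Perm.sign_swap hne]
      simp
  have sA : ∑ σ ∈ Finset.univ.filter (fun σ => ¬ P σ),
      (Equiv.Perm.sign σ : ℤ) • FreeAbelianGroup.of (flag K b σ) =
      ∑ σ ∈ Finset.univ.filter (fun σ => ¬ P σ),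
      (Equiv.Perm.sign σ : ℤ) • FreeAbelianGroup.of (flag K b' σ) := by
    refine Finset.sum_congr rfl fun σ hσ => ?_
    rw [Finset.mem_filter] at hσ
    rw [hA σ (hP σ hσ.2)]
  have sB : ∑ σ ∈ Finset.univ.filter P,
      (Equiv.Perm.sign σ : ℤ) • FreeAbelianGroup.of (flag K b' σ) =
      ∑ σ ∈ Finset.univ.filter P,
      (Equiv.Perm.sign σ : ℤ) • FreeAbelianGroup.of (flag K b'' σ) := by
    refine Finset.sum_congr rfl fun σ hσ => ?_
    rw [Finset.mem_filter] at hσ
    rw [hB σ hσ.2]
  rw [split b, split b', split b'', key, sA, sB]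
  abel

end Sum

/-! ### The map from the Bykovskii group to the Steinberg module -/

/-- The class in the Steinberg module of the apartment of an ordered basis. -/
noncomputable def apartmentClass {m : ℕ} (b : Symb O (m + 1)) : Steinberg K m :=
  homologyClass (apartment K b) (apartment_mem_cycles K b)

/-- The homomorphism from the free abelian group on symbols to the Steinberg module. -/
noncomputable def symbMap (m : ℕ) : (FreeAbelianGroup (Symb O (m + 1))) →+ Steinberg K m :=
  FreeAbelianGroup.lift (apartmentClass K)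

lemma symbMap_single {m : ℕ} (b : Symb O (m + 1)) :
    symbMap K m (FreeAbelianGroup.of b) = apartmentClass K b :=
  FreeAbelianGroup.lift_apply_of _ _

lemma relations_le_ker (m : ℕ) :
    relations O (m + 1) ≤ (symbMap (O := O) K m).ker := by
  rw [relations, AddSubgroup.closure_le]
  rintro x ((⟨b, b', σ, h, rfl⟩ | ⟨b, b', u, i₀, -, h, rfl⟩) | ⟨b, b', b'', i₀, i₁, hi₀, hi₁, h, h', rfl⟩)
  · rw [SetLike.mem_coe, AddMonoidHom.mem_ker, map_sub, map_zsmul, symbMap_single, symbMap_single]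
    unfold apartmentClass
    rw [homologyClass_zsmul, homologyClass_sub]
    exact homologyClass_eq_zero _ (apartment_perm K b b' σ h)
  · rw [SetLike.mem_coe, AddMonoidHom.mem_ker, map_sub, symbMap_single, symbMap_single]
    unfold apartmentClass
    rw [homologyClass_sub]
    exact homologyClass_eq_zero _ (apartment_unit K b b' u i₀ h)
  · rw [SetLike.mem_coe, AddMonoidHom.mem_ker, map_add, map_sub, symbMap_single, symbMap_single,
      symbMap_single]
    have hne : i₀ ≠ i₁ := by
      intro heq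
      rw [heq, hi₁] at hi₀
      exact one_ne_zero hi₀
    unfold apartmentClass
    rw [homologyClass_sub, homologyClass_add]
    exact homologyClass_eq_zero _ (apartment_sum K hne h h')

/-- The map `Byk_{m+1}(O) → St_{m+1}(K)` sending a symbol to the class of its apartment. -/
noncomputable def bykMap (O : Type*) [CommRing O] (K : Type*) [Field K] [Algebra O K]
    [IsFractionRing O K] (m : ℕ) : Byk O (m + 1) →+ Steinberg K m :=
  QuotientAddGroup.lift (relations O (m + 1)) (symbMap K m) (relations_le_ker K m)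

lemma bykMap_bykClass (O : Type*) [CommRing O] (K : Type*) [Field K] [Algebra O K]
    [IsFractionRing O K] (m : ℕ) (z : FreeAbelianGroup (Symb O (m + 1))) :
    bykMap O K m (bykClass O (m + 1) z) = symbMap K m z :=
  rfl

end Apartment

/-- The generalized Bykovskii presentation holds for `O` (with fraction field `K`): the map
`Byk_n(O) → St_n(K)` is an isomorphism for every `n ≥ 1`. -/
def BykovskiiPresentationHolds (O : Type*) [CommRing O] (K : Type*) [Field K] [Algebra O K]
    [IsFractionRing O K] : Prop :=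
  ∀ m : ℕ, Function.Bijective (bykMap O K m)

/-- `R` is a Euclidean domain, for some Euclidean function. -/
def IsEuclidean (R : Type*) [inst : CommRing R] : Prop :=
  ∃ E : EuclideanDomain R, E.toCommRing = inst

/-- Every element of `R` is a finite sum of units. -/
def GeneratedByUnits (R : Type*) [CommRing R] : Prop :=
  AddSubmonoid.closure {u : R | IsUnit u} = ⊤

/-! ### The descent cocycle -/

open Classical in
/-- `desc p₁ q₁ p₂ q₂ = 1` if `p₂ / q₂ < p₁ / q₁` (with `p / 0 = -∞`) and `0` otherwise. -/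
noncomputable def desc (p₁ q₁ p₂ q₂ : ℝ) : ℤ :=
  if q₂ = 0 then 1 else if q₁ = 0 then 0 else if 0 < (p₁ * q₂ - p₂ * q₁) * (q₁ * q₂) then 1 else 0

lemma desc_swap {p₁ q₁ p₂ q₂ : ℝ} (hd : p₁ * q₂ - p₂ * q₁ ≠ 0) :
    desc p₁ q₁ p₂ q₂ + desc p₂ q₂ p₁ q₁ = 1 := by
  unfold desc
  by_cases h2 : q₂ = 0
  · by_cases h1 : q₁ = 0
    · exfalso; apply hd; rw [h1, h2]; ring
    · simp [h2, h1]
  · by_cases h1 : q₁ = 0
    · simp [h2, h1]
    · simp only [h2, h1, if_false]
      have hne : (p₁ * q₂ - p₂ * q₁) * (q₁ * q₂) ≠ 0 := mul_ne_zero hd (mul_ne_zero h1 h2)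
      have e : (p₂ * q₁ - p₁ * q₂) * (q₂ * q₁) = - ((p₁ * q₂ - p₂ * q₁) * (q₁ * q₂)) := by ring
      rw [e]
      rcases lt_or_gt_of_ne hne with h | h
      · rw [if_neg (not_lt.mpr h.le), if_pos (by linarith)]; rfl
      · rw [if_pos h, if_neg (by linarith)]; rfl

lemma desc_unit {p₁ q₁ p₂ q₂ u : ℝ} (hu : u ≠ 0) :
    desc (u * p₁) (u * q₁) p₂ q₂ = desc p₁ q₁ p₂ q₂ := by
  unfold desc
  by_cases h2 : q₂ = 0
  · simp [h2]
  · by_cases h1 : q₁ = 0
    · simp [h2, h1]
    · simp only [h2, h1, mul_eq_zero, hu, or_self, if_false]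
      have e : (u * p₁ * q₂ - p₂ * (u * q₁)) * (u * q₁ * q₂) =
        (u * u) * ((p₁ * q₂ - p₂ * q₁) * (q₁ * q₂)) := by ring
      rw [e]
      have hpos : 0 < u * u := mul_self_pos.mpr hu
      by_cases h : 0 < (p₁ * q₂ - p₂ * q₁) * (q₁ * q₂)
      · rw [if_pos h, if_pos (mul_pos hpos h)]
      · rw [if_neg h, if_neg]
        intro h'
        exact h ((mul_pos_iff_of_pos_left hpos).mp h')

open Classical in
lemma desc_sum {p₁ q₁ p₂ q₂ : ℝ} (hd : p₁ * q₂ - p₂ * q₁ ≠ 0) :
    desc p₁ q₁ p₂ q₂ - desc (p₁ + p₂) (q₁ + q₂) p₂ q₂ + desc (p₁ + p₂) (q₁ + q₂) p₁ q₁ =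
      if p₁ * q₂ - p₂ * q₁ < 0 then 1 else 0 := by
  unfold desc
  have e1 : (p₁ + p₂) * q₂ - p₂ * (q₁ + q₂) = p₁ * q₂ - p₂ * q₁ := by ring
  have e2 : (p₁ + p₂) * q₁ - p₁ * (q₁ + q₂) = - (p₁ * q₂ - p₂ * q₁) := by ring
  rw [e1, e2]
  have hq : ¬ (q₁ = 0 ∧ q₂ = 0) := by
    rintro ⟨h1, h2⟩
    apply hd; rw [h1, h2]; ring
  clear e1 e2
  generalize p₁ * q₂ - p₂ * q₁ = d at *
  simp only [neg_mul, neg_pos]
  by_cases h2 : q₂ = 0
  · have h1 : q₁ ≠ 0 := fun h => hq ⟨h, h2⟩
    have hpos : 0 < q₁ * q₁ := mul_self_pos.mpr h1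
    subst h2
    rcases lt_or_gt_of_ne hd with h | h
    · have f : d * (q₁ * q₁) < 0 := mul_neg_of_neg_of_pos h hpos
      simp [h1, f, h]
    · have f : 0 < d * (q₁ * q₁) := mul_pos h hpos
      simp [h1, lt_asymm f, lt_asymm h]
  by_cases h1 : q₁ = 0
  · have hpos : 0 < q₂ * q₂ := mul_self_pos.mpr h2
    subst h1
    rcases lt_or_gt_of_ne hd with h | h
    · have f : d * (q₂ * q₂) < 0 := mul_neg_of_neg_of_pos h hpos
      simp [h2, lt_asymm f, h]
    · have f : 0 < d * (q₂ * q₂) := mul_pos h hpos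
      simp [h2, f, lt_asymm h]
  by_cases h3 : q₁ + q₂ = 0
  · have e : q₂ = - q₁ := by linarith
    have hpos : 0 < q₁ * q₁ := mul_self_pos.mpr h1
    subst e
    rcases lt_or_gt_of_ne hd with h | h
    · have f : d * (q₁ * q₁) < 0 := mul_neg_of_neg_of_pos h hpos
      simp [h1, f, h]
    · have f : 0 < d * (q₁ * q₁) := mul_pos h hpos
      simp [h1, lt_asymm f, lt_asymm h]
  simp only [h1, h2, h3, if_false]
  rcases lt_or_gt_of_ne h1 with a | a <;> rcases lt_or_gt_of_ne h2 with b | b <;>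
    rcases lt_or_gt_of_ne h3 with c | c <;> rcases lt_or_gt_of_ne hd with h | h <;>
    first
    | (exfalso; linarith)
    | (simp [mul_pos_iff, mul_neg_iff, a, b, c, h, lt_asymm a, lt_asymm b, lt_asymm c, lt_asymm h])

section Cocycle

variable {O : Type*} [CommRing O]

/-- The descent indicator of two vectors of `O²` at a real place. -/
noncomputable def descAt (ρ : O →+* ℝ) (v w : Fin 2 → O) : ℤ :=
  desc (ρ (v 0)) (ρ (v 1)) (ρ (w 0)) (ρ (w 1))

/-- The difference of the descent indicators at two real places. -/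
noncomputable def cocycle (σ τ : O →+* ℝ) (b : Symb O 2) : ℤ :=
  descAt σ (b 0) (b 1) - descAt τ (b 0) (b 1)

/-- The linear extension of the cocycle. -/
noncomputable def cocycleMap (σ τ : O →+* ℝ) : (FreeAbelianGroup (Symb O 2)) →+ ℤ :=
  FreeAbelianGroup.lift (cocycle σ τ)

lemma cocycleMap_single (σ τ : O →+* ℝ) (b : Symb O 2) :
    cocycleMap σ τ (FreeAbelianGroup.of b) = cocycle σ τ b :=
  FreeAbelianGroup.lift_apply_of _ _

lemma isUnit_det (b : Symb O 2) : IsUnit (b 0 0 * b 1 1 - b 1 0 * b 0 1) := by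
  have h := (Pi.basisFun O (Fin 2)).isUnit_det b
  rw [Basis.det_apply, Matrix.det_fin_two] at h
  simpa [Basis.toMatrix_apply] using h

lemma relations_le_ker_cocycle (σ τ : O →+* ℝ) (hun : ∀ u : Oˣ, 0 < σ u * τ u) :
    relations O 2 ≤ (cocycleMap σ τ).ker := by
  have hdet : ∀ (ρ : O →+* ℝ) (b : Symb O 2),
      ρ (b 0 0) * ρ (b 1 1) - ρ (b 1 0) * ρ (b 0 1) ≠ 0 := by
    intro ρ b
    have := (isUnit_det b).map ρ
    rw [map_sub, map_mul, map_mul] at this
    exact this.ne_zero
  have hsgn : ∀ b : Symb O 2, 0 < (σ (b 0 0) * σ (b 1 1) - σ (b 1 0) * σ (b 0 1)) *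
      (τ (b 0 0) * τ (b 1 1) - τ (b 1 0) * τ (b 0 1)) := by
    intro b
    obtain ⟨u, hu⟩ := isUnit_det b
    have := hun u
    rw [hu] at this
    simpa [map_sub, map_mul] using this
  rw [relations, AddSubgroup.closure_le]
  rintro x ((⟨b, b', π, h, rfl⟩ | ⟨b, b', u, i₀, hi₀, h, rfl⟩) |
    ⟨b, b', b'', i₀, i₁, hi₀, hi₁, h, h', rfl⟩)
  · rw [SetLike.mem_coe, AddMonoidHom.mem_ker, map_sub, map_zsmul, cocycleMap_single,
      cocycleMap_single]
    have hall : ∀ π : Equiv.Perm (Fin 2), π = 1 ∨ π = Equiv.swap 0 1 := by decide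
    have hπ : π = 1 ∨ π = Equiv.swap 0 1 := hall π
    rcases hπ with rfl | rfl
    · have : cocycle σ τ b' = cocycle σ τ b := by
        unfold cocycle
        rw [h 0, h 1]; rfl
      rw [this]; simp
    · have e0 : b' 0 = b 1 := by rw [h 0]; rfl
      have e1 : b' 1 = b 0 := by rw [h 1]; rfl
      have h1 := desc_swap (hdet σ b)
      have h2 := desc_swap (hdet τ b)
      rw [Equiv.Perm.sign_swap (by decide)]
      simp only [cocycle, descAt, e0, e1]
      simp only [Units.val_neg, Units.val_one, smul_eq_mul]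
      linarith
  · rw [SetLike.mem_coe, AddMonoidHom.mem_ker, map_sub, cocycleMap_single, cocycleMap_single]
    have hi : i₀ = 0 := Fin.ext hi₀
    subst hi
    have e0 : b' 0 = (u : O) • b 0 := by rw [h, Function.update_self]
    have e1 : b' 1 = b 1 := by rw [h, Function.update_of_ne (by decide)]
    have hu : ∀ ρ : O →+* ℝ, ρ u ≠ 0 := fun ρ => (u.isUnit.map ρ).ne_zero
    have key : ∀ ρ : O →+* ℝ, descAt ρ (b' 0) (b' 1) = descAt ρ (b 0) (b 1) := by
      intro ρ
      unfold descAt
      rw [e0, e1]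
      simp only [Pi.smul_apply, smul_eq_mul, map_mul]
      exact desc_unit (hu ρ)
    unfold cocycle
    rw [key, key, sub_self]
  · rw [SetLike.mem_coe, AddMonoidHom.mem_ker, map_add, map_sub, cocycleMap_single,
      cocycleMap_single, cocycleMap_single]
    have hi : i₀ = 0 := Fin.ext hi₀
    have hi' : i₁ = 1 := Fin.ext hi₁
    subst hi
    subst hi'
    have e0 : b' 0 = b 0 + b 1 := by rw [h, Function.update_self]
    have e1 : b' 1 = b 1 := by rw [h, Function.update_of_ne (by decide)]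
    have f0 : b'' 0 = b 0 + b 1 := by
      rw [h', Function.update_of_ne (by decide), Function.update_self]
    have f1 : b'' 1 = b 0 := by rw [h', Function.update_self]
    have h1 := desc_sum (hdet σ b)
    have h2 := desc_sum (hdet τ b)
    have h3 := hsgn b
    have hiff : (σ (b 0 0) * σ (b 1 1) - σ (b 1 0) * σ (b 0 1) < 0) ↔
        (τ (b 0 0) * τ (b 1 1) - τ (b 1 0) * τ (b 0 1) < 0) := by
      rcases mul_pos_iff.mp h3 with ⟨ha, hb⟩ | ⟨ha, hb⟩
      · exact ⟨fun h => absurd h (lt_asymm ha), fun h => absurd h (lt_asymm hb)⟩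
      · exact ⟨fun _ => hb, fun _ => ha⟩
    simp only [hiff] at h1
    rw [← h2] at h1
    simp only [cocycle, descAt, e0, e1, f0, f1, Pi.add_apply, map_add]
    linarith

end Cocycle

/-! ### Symbols from matrices of determinant one -/

section DetOne

variable {O : Type*} [CommRing O]

/-- The ordered basis `((p, q), (r, s))` of `O²` when `p s - r q = 1`. -/
noncomputable def symbOfDet (p q r s : O) (h : p * s - r * q = 1) : Symb O 2 :=
  Basis.ofEquivFun
    { toFun := fun v => ![s * v 0 - r * v 1, p * v 1 - q * v 0]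
      map_add' := by
        intro v w; funext i; fin_cases i <;> simp <;> ring
      map_smul' := by
        intro c v; funext i; fin_cases i <;> simp <;> ring
      invFun := fun v => ![p * v 0 + r * v 1, q * v 0 + s * v 1]
      left_inv := by
        intro v
        funext i
        fin_cases i
        · simp; linear_combination (v 0) * h
        · simp; linear_combination (v 1) * h
      right_inv := by
        intro v
        funext i
        fin_cases i
        · simp; linear_combination (v 0) * h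
        · simp; linear_combination (v 1) * h }

lemma symbOfDet_zero (p q r s : O) (h : p * s - r * q = 1) :
    symbOfDet p q r s h 0 = ![p, q] := by
  funext i
  fin_cases i <;> simp [symbOfDet, Basis.coe_ofEquivFun]

lemma symbOfDet_one (p q r s : O) (h : p * s - r * q = 1) :
    symbOfDet p q r s h 1 = ![r, s] := by
  funext i
  fin_cases i <;> simp [symbOfDet, Basis.coe_ofEquivFun]

end DetOne

/-! ### The field `ℚ(√3)` -/

/-- The field `ℚ(√3)`. -/
abbrev QSqrt3 : Type := QuadraticAlgebra ℚ 3 0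

instance fact_sqrt3 : Fact (∀ r : ℚ, r ^ 2 ≠ 3 + 0 * r) := by
  constructor
  intro r hr
  rw [zero_mul, add_zero] at hr
  have h3 : Irrational (√3) := Nat.Prime.irrational_sqrt (by norm_num : Nat.Prime 3)
  apply h3
  have hr' : ((r : ℝ)) ^ 2 = 3 := by exact_mod_cast hr
  refine ⟨|r|, ?_⟩
  rw [← hr', Real.sqrt_sq_eq_abs]
  push_cast
  rfl

instance : NumberField QSqrt3 where
  to_charZero := inferInstance
  to_finiteDimensional := by
    have e : (QuadraticAlgebra.instAlgebra : Algebra ℚ QSqrt3) = DivisionRing.toRatAlgebra :=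
      Subsingleton.elim _ _
    have h : @Module.Finite ℚ QSqrt3 _ _ QuadraticAlgebra.instAlgebra.toModule := inferInstance
    rw [e] at h
    exact h

open NumberField

/-- Conjugation as a ring homomorphism. -/
noncomputable def conj : QSqrt3 →+* QSqrt3 := starRingEnd QSqrt3

lemma isInt_of_isIntegral {q : ℚ} (h : IsIntegral ℤ (⟨q, 0⟩ : QSqrt3)) : ∃ n : ℤ, (n : ℚ) = q := by
  have h' : IsIntegral ℤ (algebraMap ℚ QSqrt3 q) := h
  rw [isIntegral_algebraMap_iff (algebraMap ℚ QSqrt3).injective] at h'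
  exact IsIntegrallyClosed.isIntegral_iff.mp h'

/-- An integer of `ℚ(√3)` has integer coordinates. -/
lemma exists_coord (x : 𝓞 QSqrt3) : ∃ a b : ℤ, (x : QSqrt3) = ⟨a, b⟩ := by
  have hx : IsIntegral ℤ (x : QSqrt3) := x.2
  have hx' : IsIntegral ℤ (conj (x : QSqrt3)) := hx.map (conj.toIntAlgHom)
  set z : QSqrt3 := (x : QSqrt3) with hz
  have hc : conj z = ⟨z.re, -z.im⟩ := by
    show star z = _
    apply QuadraticAlgebra.ext <;> simp
  have hs : IsIntegral ℤ (⟨2 * z.re, 0⟩ : QSqrt3) := by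
    have h0 := hx.add hx'
    rw [hc] at h0
    have e : z + ⟨z.re, -z.im⟩ = (⟨2 * z.re, 0⟩ : QSqrt3) := by
      apply QuadraticAlgebra.ext
      · simp; ring
      · simp
    rwa [e] at h0
  have hp : IsIntegral ℤ (⟨z.re * z.re - 3 * z.im * z.im, 0⟩ : QSqrt3) := by
    have h0 := hx.mul hx'
    rw [hc] at h0
    have e : z * ⟨z.re, -z.im⟩ = (⟨z.re * z.re - 3 * z.im * z.im, 0⟩ : QSqrt3) := by
      apply QuadraticAlgebra.ext
      · simp; ring
      · simp; ring
    rwa [e] at h0
  obtain ⟨A, hA⟩ := isInt_of_isIntegral hs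
  obtain ⟨N, hN⟩ := isInt_of_isIntegral hp
  -- `6 * z.im` is an integer
  have h1 : (6 * z.im) ^ 2 = ((3 * (A ^ 2 - 4 * N) : ℤ) : ℚ) := by
    push_cast
    rw [hA, hN]; ring
  obtain ⟨C, hC⟩ : ∃ C : ℤ, (C : ℚ) = 6 * z.im := by
    have : IsIntegral ℤ (6 * z.im) := by
      apply IsIntegral.of_pow (n := 2) (by norm_num)
      rw [h1]
      exact isIntegral_algebraMap (R := ℤ) (x := 3 * (A ^ 2 - 4 * N))
    exact IsIntegrallyClosed.isIntegral_iff.mp this
  have h2 : C ^ 2 = 3 * (A ^ 2 - 4 * N) := by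
    have : ((C ^ 2 : ℤ) : ℚ) = ((3 * (A ^ 2 - 4 * N) : ℤ) : ℚ) := by
      rw [← h1, ← hC]; push_cast; ring
    exact_mod_cast this
  have h3 : (3 : ℤ) ∣ C := by
    have : (3 : ℤ) ∣ C ^ 2 := ⟨_, h2⟩
    exact Int.Prime.dvd_pow' (by norm_num) this
  obtain ⟨B, rfl⟩ := h3
  have h4 : A ^ 2 - 3 * B ^ 2 = 4 * N := by nlinarith
  have h5 : A % 2 = 0 ∧ B % 2 = 0 := by
    have hA4 : A % 4 = 0 ∨ A % 4 = 1 ∨ A % 4 = 2 ∨ A % 4 = 3 := by omega
    have hB4 : B % 4 = 0 ∨ B % 4 = 1 ∨ B % 4 = 2 ∨ B % 4 = 3 := by omega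
    have h6 : (A ^ 2 - 3 * B ^ 2) % 4 = 0 := by rw [h4]; omega
    rcases hA4 with h | h | h | h <;> rcases hB4 with h' | h' | h' | h' <;>
      first
      | (constructor <;> omega)
      | (exfalso; simp [pow_two, Int.sub_emod, Int.mul_emod, h, h'] at h6)
  obtain ⟨a, ha⟩ : ∃ a : ℤ, A = 2 * a := ⟨A / 2, by omega⟩
  obtain ⟨b, hb⟩ : ∃ b : ℤ, B = 2 * b := ⟨B / 2, by omega⟩
  refine ⟨a, b, ?_⟩
  apply QuadraticAlgebra.ext
  · show z.re = a
    rw [ha] at hA
    push_cast at hA
    linarith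
  · show z.im = b
    rw [hb] at hC
    push_cast at hC
    linarith

/-- `√3` as an algebraic integer of `ℚ(√3)`. -/
noncomputable def root3 : 𝓞 QSqrt3 :=
  ⟨⟨0, 1⟩, by
    show IsIntegral ℤ (⟨0, 1⟩ : QSqrt3)
    apply IsIntegral.of_pow (n := 2) (by norm_num)
    have e : (⟨0, 1⟩ : QSqrt3) ^ 2 = algebraMap ℤ QSqrt3 3 := by
      apply QuadraticAlgebra.ext
      · simp [pow_two]; rfl
      · simp [pow_two]; rfl
    rw [e]
    exact isIntegral_algebraMap⟩

lemma root3_coe : (root3 : QSqrt3) = ⟨0, 1⟩ := rfl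

/-- The algebraic integer `a + b √3`. -/
noncomputable def mkInt (a b : ℤ) : 𝓞 QSqrt3 := (a : 𝓞 QSqrt3) + (b : 𝓞 QSqrt3) * root3

lemma mkInt_coe (a b : ℤ) : (mkInt a b : QSqrt3) = ⟨a, b⟩ := by
  have : (mkInt a b : QSqrt3) = (a : QSqrt3) + (b : QSqrt3) * ⟨0, 1⟩ := by
    simp [mkInt, root3_coe]
  rw [this]
  apply QuadraticAlgebra.ext
  · simp
  · simp

lemma exists_mkInt (x : 𝓞 QSqrt3) : ∃ a b : ℤ, x = mkInt a b := by
  obtain ⟨a, b, h⟩ := exists_coord x
  refine ⟨a, b, ?_⟩
  apply RingOfIntegers.ext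
  rw [h, mkInt_coe]

lemma root3_sq : root3 * root3 = 3 := by
  apply RingOfIntegers.ext
  have e : ((3 : 𝓞 QSqrt3) : QSqrt3) = 3 := map_ofNat _ 3
  rw [e]
  show (⟨0, 1⟩ : QSqrt3) * ⟨0, 1⟩ = _
  apply QuadraticAlgebra.ext
  · simp; rfl
  · simp; rfl

/-! ### Two real places -/

/-- The real embedding of `ℚ(√3)` with `√3 ↦ √3`. -/
noncomputable def emb₁ : QSqrt3 →ₐ[ℚ] ℝ :=
  QuadraticAlgebra.lift ⟨√3, by simp [Algebra.smul_def]⟩

/-- The real embedding of `ℚ(√3)` with `√3 ↦ -√3`. -/
noncomputable def emb₂ : QSqrt3 →ₐ[ℚ] ℝ :=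
  QuadraticAlgebra.lift ⟨-√3, by simp [Algebra.smul_def]⟩

lemma emb₁_apply (z : QSqrt3) : emb₁ z = z.re + z.im * √3 := by
  show z.re • (1 : ℝ) + z.im • √3 = _
  simp [Algebra.smul_def]

lemma emb₂_apply (z : QSqrt3) : emb₂ z = z.re - z.im * √3 := by
  show z.re • (1 : ℝ) + z.im • (-√3) = _
  simp [Algebra.smul_def]; ring

/-- The first real place on the ring of integers. -/
noncomputable def place₁ : 𝓞 QSqrt3 →+* ℝ := (emb₁ : QSqrt3 →+* ℝ).comp (algebraMap _ _)

/-- The second real place on the ring of integers. -/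
noncomputable def place₂ : 𝓞 QSqrt3 →+* ℝ := (emb₂ : QSqrt3 →+* ℝ).comp (algebraMap _ _)

lemma place₁_mkInt (a b : ℤ) : place₁ (mkInt a b) = a + b * √3 := by
  show emb₁ ((mkInt a b : 𝓞 QSqrt3) : QSqrt3) = _
  rw [mkInt_coe, emb₁_apply]
  simp

lemma place₂_mkInt (a b : ℤ) : place₂ (mkInt a b) = a - b * √3 := by
  show emb₂ ((mkInt a b : 𝓞 QSqrt3) : QSqrt3) = _
  rw [mkInt_coe, emb₂_apply]
  simp

lemma place_mul (a b : ℤ) :
    place₁ (mkInt a b) * place₂ (mkInt a b) = ((a ^ 2 - 3 * b ^ 2 : ℤ) : ℝ) := by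
  rw [place₁_mkInt, place₂_mkInt]
  have h3 : √3 * √3 = (3 : ℝ) := Real.mul_self_sqrt (by norm_num)
  push_cast
  linear_combination (-(b : ℝ) ^ 2) * h3

lemma place_unit_pos (u : (𝓞 QSqrt3)ˣ) : 0 < place₁ u * place₂ u := by
  obtain ⟨a, b, h⟩ := exists_mkInt (u : 𝓞 QSqrt3)
  obtain ⟨c, d, h'⟩ := exists_mkInt ((u⁻¹ : (𝓞 QSqrt3)ˣ) : 𝓞 QSqrt3)
  have h1 : place₁ u * place₂ u * (place₁ (u⁻¹ : (𝓞 QSqrt3)ˣ) * place₂ (u⁻¹ : (𝓞 QSqrt3)ˣ)) = 1 := by
    have e1 : place₁ u * place₁ (u⁻¹ : (𝓞 QSqrt3)ˣ) = 1 := by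
      rw [← map_mul, Units.mul_inv, map_one]
    have e2 : place₂ u * place₂ (u⁻¹ : (𝓞 QSqrt3)ˣ) = 1 := by
      rw [← map_mul, Units.mul_inv, map_one]
    calc _ = (place₁ u * place₁ (u⁻¹ : (𝓞 QSqrt3)ˣ)) * (place₂ u * place₂ (u⁻¹ : (𝓞 QSqrt3)ˣ)) := by ring
      _ = 1 := by rw [e1, e2, one_mul]
  rw [h', h, place_mul, place_mul] at h1
  rw [h, place_mul]
  have h2 : (a ^ 2 - 3 * b ^ 2) * (c ^ 2 - 3 * d ^ 2) = 1 := by exact_mod_cast h1
  have h3 : a ^ 2 - 3 * b ^ 2 = 1 ∨ a ^ 2 - 3 * b ^ 2 = -1 :=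
    Int.isUnit_iff.mp (IsUnit.of_mul_eq_one _ h2)
  rcases h3 with h3 | h3
  · rw [h3]; norm_num
  · exfalso
    have hmod : (a ^ 2) % 3 = 2 := by omega
    have ha : a % 3 = 0 ∨ a % 3 = 1 ∨ a % 3 = 2 := by omega
    rcases ha with h | h | h <;> simp [pow_two, Int.mul_emod, h] at hmod

/-! ### Generation by units -/

lemma generatedByUnits : GeneratedByUnits (𝓞 QSqrt3) := by
  unfold GeneratedByUnits
  set M := AddSubmonoid.closure {u : 𝓞 QSqrt3 | IsUnit u} with hM
  have hint : ∀ (u : 𝓞 QSqrt3), IsUnit u → ∀ n : ℤ, (n : 𝓞 QSqrt3) * u ∈ M := by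
    intro u hu n
    rcases Int.eq_nat_or_neg n with ⟨k, rfl | rfl⟩
    · have : ((k : ℤ) : 𝓞 QSqrt3) * u = k • u := by simp
      rw [this]
      exact AddSubmonoid.nsmul_mem _ (AddSubmonoid.subset_closure (show u ∈ {u : 𝓞 QSqrt3 | IsUnit u} from hu)) k
    · have : ((-(k : ℤ) : ℤ) : 𝓞 QSqrt3) * u = k • (-u) := by simp
      rw [this]
      exact AddSubmonoid.nsmul_mem _ (AddSubmonoid.subset_closure (show -u ∈ {u : 𝓞 QSqrt3 | IsUnit u} from hu.neg)) k
  have hε : IsUnit (2 + root3) := by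
    apply IsUnit.of_mul_eq_one (2 - root3)
    have := root3_sq
    linear_combination (-1 : 𝓞 QSqrt3) * this
  rw [eq_top_iff]
  intro x _
  obtain ⟨a, b, rfl⟩ := exists_mkInt x
  have e : mkInt a b = ((a - 2 * b : ℤ) : 𝓞 QSqrt3) * 1 + (b : 𝓞 QSqrt3) * (2 + root3) := by
    unfold mkInt
    push_cast
    ring
  rw [e]
  exact AddSubmonoid.add_mem _ (hint 1 isUnit_one _) (hint _ hε _)

/-! ### The Euclidean property -/

lemma isEuclidean_of_norm {R : Type*} [CommRing R] [Nontrivial R] (N : R → ℕ)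
    (h0 : ∀ x, N x = 0 ↔ x = 0) (hmul : ∀ x y, N (x * y) = N x * N y)
    (hdiv : ∀ a b : R, b ≠ 0 → ∃ q, N (a - b * q) < N b) : IsEuclidean R := by
  classical
  choose! q hq using hdiv
  refine ⟨{ toCommRing := inferInstance
            toNontrivial := inferInstance
            quotient := fun a b => if b = 0 then 0 else q a b
            quotient_zero := fun a => by simp
            remainder := fun a b => a - b * (if b = 0 then 0 else q a b)
            quotient_mul_add_remainder_eq := fun a b => by ring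
            r := fun a b => N a < N b
            r_wellFounded := (measure N).wf
            remainder_lt := fun a b hb => by
              simp only [hb, if_false]
              exact hq a b hb
            mul_left_not_lt := fun a b hb => by
              rw [not_lt, hmul]
              have : 0 < N b := Nat.pos_of_ne_zero fun h => hb ((h0 b).mp h)
              exact Nat.le_mul_of_pos_right _ this }, rfl⟩

/-- The norm of `ℚ(√3)` as a rational number. -/
lemma norm_eq (z : QSqrt3) : z.norm = z.re ^ 2 - 3 * z.im ^ 2 := by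
  rw [QuadraticAlgebra.norm_def]; ring

/-- The absolute value of the norm of an algebraic integer. -/
noncomputable def absNorm (x : 𝓞 QSqrt3) : ℕ := ((x : QSqrt3).norm.num).natAbs

lemma absNorm_cast (x : 𝓞 QSqrt3) : (absNorm x : ℚ) = |(x : QSqrt3).norm| := by
  obtain ⟨a, b, h⟩ := exists_coord x
  have e : (x : QSqrt3).norm = ((a ^ 2 - 3 * b ^ 2 : ℤ) : ℚ) := by
    rw [norm_eq, h]; push_cast; rfl
  unfold absNorm
  rw [e, Rat.num_intCast]
  push_cast [Nat.cast_natAbs]
  rfl

lemma isEuclidean : IsEuclidean (𝓞 QSqrt3) := by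
  refine isEuclidean_of_norm absNorm ?_ ?_ ?_
  · intro x
    have h := absNorm_cast x
    constructor
    · intro hx
      rw [hx] at h
      have h1 : (x : QSqrt3).norm = 0 := by
        have := h.symm
        simpa using this
      rw [QuadraticAlgebra.norm_eq_zero_iff_eq_zero] at h1
      exact RingOfIntegers.ext h1
    · rintro rfl
      have : (absNorm 0 : ℚ) = 0 := by
        rw [absNorm_cast]
        simp
      exact_mod_cast this
  · intro x y
    have h : (absNorm (x * y) : ℚ) = absNorm x * absNorm y := by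
      rw [absNorm_cast, absNorm_cast, absNorm_cast, ← abs_mul, ← map_mul]
      rfl
    exact_mod_cast h
  · intro a b hb
    have hb' : (b : QSqrt3) ≠ 0 := by
      intro h
      exact hb (RingOfIntegers.ext h)
    set z : QSqrt3 := (a : QSqrt3) / (b : QSqrt3) with hz
    refine ⟨mkInt (round z.re) (round z.im), ?_⟩
    have h1 : ((a - b * mkInt (round z.re) (round z.im) : 𝓞 QSqrt3) : QSqrt3) =
        (b : QSqrt3) * (z - ⟨(round z.re : ℤ), (round z.im : ℤ)⟩) := by
      have h2 : ((a - b * mkInt (round z.re) (round z.im) : 𝓞 QSqrt3) : QSqrt3) =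
        (a : QSqrt3) - (b : QSqrt3) * ((mkInt (round z.re) (round z.im) : 𝓞 QSqrt3) : QSqrt3) := by
        simp
      rw [h2, mkInt_coe, mul_sub, hz, mul_div_cancel₀ _ hb']
    have h3 : |(z - ⟨(round z.re : ℤ), (round z.im : ℤ)⟩ : QSqrt3).norm| < 1 := by
      rw [norm_eq]
      have e1 := abs_le.mp (abs_sub_round z.re)
      have e2 := abs_le.mp (abs_sub_round z.im)
      have e3 : (z - ⟨(round z.re : ℤ), (round z.im : ℤ)⟩ : QSqrt3).re = z.re - round z.re := rfl
      have e4 : (z - ⟨(round z.re : ℤ), (round z.im : ℤ)⟩ : QSqrt3).im = z.im - round z.im := rfl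
      rw [e3, e4, abs_lt]
      constructor
      · nlinarith [sq_nonneg (z.re - round z.re)]
      · nlinarith [sq_nonneg (z.im - round z.im)]
    have h4 : (absNorm (a - b * mkInt (round z.re) (round z.im)) : ℚ) < absNorm b := by
      rw [absNorm_cast, absNorm_cast, h1, map_mul, abs_mul]
      have h5 : 0 < |(b : QSqrt3).norm| := by
        rw [abs_pos]
        intro h
        exact hb' (QuadraticAlgebra.norm_eq_zero_iff_eq_zero.mp h)
      calc |(b : QSqrt3).norm| * _ < |(b : QSqrt3).norm| * 1 := mul_lt_mul_of_pos_left h3 h5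
        _ = _ := mul_one _
    exact_mod_cast h4

/-! ### The nonzero element of the kernel for `n = 2` -/

section Two

variable {O : Type*} [CommRing O] (K : Type*) [Field K] [Algebra O K] [IsFractionRing O K]

lemma flag_two {b b' : Symb O 2} {σ σ' : Equiv.Perm (Fin 2)} (h : b (σ 0) = b' (σ' 0)) :
    flag (m := 1) K b σ = flag (m := 1) K b' σ' := by
  apply flag_ext
  intro i
  have hi : (i.castSucc : Fin 2) = 0 := by
    have := Fin.eq_zero i
    subst this; rfl
  have hs : Set.Iic (0 : Fin 2) = {0} := by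
    ext x; simp
  rw [hi, hs, Set.image_singleton, Set.image_singleton]
  unfold spanOn
  rw [Set.image_singleton, Set.image_singleton, h]

lemma apartment_two (b : Symb O 2) :
    apartment (m := 1) K b = FreeAbelianGroup.of (flag (m := 1) K b 1) -
      FreeAbelianGroup.of (flag (m := 1) K b (Equiv.swap 0 1)) := by
  have huniv : (Finset.univ : Finset (Equiv.Perm (Fin 2))) = {1, Equiv.swap 0 1} := by decide
  unfold apartment
  show ∑ σ : Equiv.Perm (Fin 2), _ = _
  rw [huniv, Finset.sum_pair (by decide), Equiv.Perm.sign_swap (by decide), Equiv.Perm.sign_one]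
  simp [sub_eq_add_neg]

/-- The symbols of a closed edge path of length four in the graph of bases map to zero. -/
lemma apartment_cycle {b₀₁ b₁₂ b₂₃ b₀₃ : Symb O 2} (h₁ : b₀₁ 1 = b₁₂ 0) (h₂ : b₁₂ 1 = b₂₃ 0)
    (h₃ : b₂₃ 1 = b₀₃ 1) (h₀ : b₀₁ 0 = b₀₃ 0) :
    apartment (m := 1) K b₀₁ + apartment (m := 1) K b₁₂ + apartment (m := 1) K b₂₃ -
      apartment (m := 1) K b₀₃ = 0 := by
  rw [apartment_two, apartment_two, apartment_two, apartment_two]
  have s0 : Equiv.swap (0 : Fin 2) 1 0 = 1 := Equiv.swap_apply_left _ _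
  have e1 : flag (m := 1) K b₀₁ (Equiv.swap 0 1) = flag (m := 1) K b₁₂ 1 :=
    flag_two K (by rw [s0, h₁]; rfl)
  have e2 : flag (m := 1) K b₁₂ (Equiv.swap 0 1) = flag (m := 1) K b₂₃ 1 :=
    flag_two K (by rw [s0, h₂]; rfl)
  have e3 : flag (m := 1) K b₂₃ (Equiv.swap 0 1) = flag (m := 1) K b₀₃ (Equiv.swap 0 1) :=
    flag_two K (by rw [s0, h₃])
  have e0 : flag (m := 1) K b₀₁ 1 = flag (m := 1) K b₀₃ 1 :=
    flag_two K (by show b₀₁ 0 = b₀₃ 0; exact h₀)
  rw [e1, e2, e3, e0]
  abel

end Two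

lemma not_injective : ¬ Function.Injective (bykMap (𝓞 QSqrt3) QSqrt3 1) := by
  intro hinj
  set s := root3 with hs
  have hss : s * s = 3 := root3_sq
  let b₀₁ : Symb (𝓞 QSqrt3) 2 := symbOfDet 1 0 (s - 1) 1 (by ring)
  let b₁₂ : Symb (𝓞 QSqrt3) 2 := symbOfDet (s - 1) 1 1 (1 + s) (by linear_combination hss)
  let b₂₃ : Symb (𝓞 QSqrt3) 2 := symbOfDet 1 (1 + s) 0 1 (by ring)
  let b₀₃ : Symb (𝓞 QSqrt3) 2 := symbOfDet 1 0 0 1 (by ring)
  have a₀₁ : b₀₁ 0 = ![1, 0] := symbOfDet_zero _ _ _ _ _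
  have c₀₁ : b₀₁ 1 = ![s - 1, 1] := symbOfDet_one _ _ _ _ _
  have a₁₂ : b₁₂ 0 = ![s - 1, 1] := symbOfDet_zero _ _ _ _ _
  have c₁₂ : b₁₂ 1 = ![1, 1 + s] := symbOfDet_one _ _ _ _ _
  have a₂₃ : b₂₃ 0 = ![1, 1 + s] := symbOfDet_zero _ _ _ _ _
  have c₂₃ : b₂₃ 1 = ![0, 1] := symbOfDet_one _ _ _ _ _
  have a₀₃ : b₀₃ 0 = ![1, 0] := symbOfDet_zero _ _ _ _ _
  have c₀₃ : b₀₃ 1 = ![0, 1] := symbOfDet_one _ _ _ _ _
  let z : FreeAbelianGroup (Symb (𝓞 QSqrt3) 2) := FreeAbelianGroup.of b₀₁ + FreeAbelianGroup.of b₁₂ +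
    FreeAbelianGroup.of b₂₃ - FreeAbelianGroup.of b₀₃
  -- the class of `z` maps to zero
  have hz0 : symbMap (O := 𝓞 QSqrt3) QSqrt3 1 z = 0 := by
    simp only [z, map_sub, map_add]
    rw [symbMap_single, symbMap_single, symbMap_single, symbMap_single]
    unfold apartmentClass
    rw [homologyClass_add, homologyClass_add, homologyClass_sub]
    exact homologyClass_eq_zero _ (apartment_cycle QSqrt3 (by rw [c₀₁, a₁₂]) (by rw [c₁₂, a₂₃])
      (by rw [c₂₃, c₀₃]) (by rw [a₀₁, a₀₃]))
  have hz1 : bykClass (𝓞 QSqrt3) 2 z = 0 := by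
    apply hinj
    rw [map_zero]
    exact (bykMap_bykClass (𝓞 QSqrt3) QSqrt3 1 z).trans hz0
  rw [bykClass_eq_zero_iff] at hz1
  have hz2 := relations_le_ker_cocycle place₁ place₂ place_unit_pos hz1
  rw [AddMonoidHom.mem_ker] at hz2
  -- evaluate the cocycle
  have hp1 : place₁ s = √3 := by
    have := place₁_mkInt 0 1
    simpa [mkInt] using this
  have hp2 : place₂ s = -√3 := by
    have := place₂_mkInt 0 1
    simpa [mkInt] using this
  have h3 : (1 : ℝ) < √3 := by
    rw [Real.lt_sqrt (by norm_num)]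
    norm_num
  have hsq : √3 * √3 = (3 : ℝ) := Real.mul_self_sqrt (by norm_num)
  have v₀₁ : cocycle place₁ place₂ b₀₁ = 0 := by
    simp [cocycle, descAt, a₀₁, c₀₁, desc]
  have v₀₃ : cocycle place₁ place₂ b₀₃ = 0 := by
    simp [cocycle, descAt, a₀₃, c₀₃, desc]
  have v₁₂ : cocycle place₁ place₂ b₁₂ = 1 := by
    have n1 : (1 : ℝ) + √3 ≠ 0 := by linarith
    have n2 : (1 : ℝ) + -√3 ≠ 0 := by linarith
    have d1 : desc (√3 - 1) 1 1 (1 + √3) = 1 := by
      unfold desc
      rw [if_neg n1, if_neg one_ne_zero, if_pos]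
      have : ((√3 - 1) * (1 + √3) - 1 * 1) * (1 * (1 + √3)) = 1 + √3 := by
        linear_combination (1 + √3) * hsq
      rw [this]; linarith
    have d2 : desc (-√3 - 1) 1 1 (1 + -√3) = 0 := by
      unfold desc
      rw [if_neg n2, if_neg one_ne_zero, if_neg]
      have : ((-√3 - 1) * (1 + -√3) - 1 * 1) * (1 * (1 + -√3)) = 1 - √3 := by
        linear_combination (1 - √3) * hsq
      rw [this]; linarith
    simp only [cocycle, descAt, a₁₂, c₁₂]
    simp only [Matrix.cons_val_zero, Matrix.cons_val_one, map_sub, map_add, map_one, hp1, hp2]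
    rw [d1, d2]; rfl
  have v₂₃ : cocycle place₁ place₂ b₂₃ = 1 := by
    have n1 : (1 : ℝ) + √3 ≠ 0 := by linarith
    have n2 : (1 : ℝ) + -√3 ≠ 0 := by linarith
    have d1 : desc 1 (1 + √3) 0 1 = 1 := by
      unfold desc
      rw [if_neg one_ne_zero, if_neg n1, if_pos]
      have : ((1 : ℝ) * 1 - 0 * (1 + √3)) * ((1 + √3) * 1) = 1 + √3 := by ring
      rw [this]; linarith
    have d2 : desc 1 (1 + -√3) 0 1 = 0 := by
      unfold desc
      rw [if_neg one_ne_zero, if_neg n2, if_neg]
      have : ((1 : ℝ) * 1 - 0 * (1 + -√3)) * ((1 + -√3) * 1) = 1 - √3 := by ring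
      rw [this]; linarith
    simp only [cocycle, descAt, a₂₃, c₂₃]
    simp only [Matrix.cons_val_zero, Matrix.cons_val_one, map_zero, map_add, map_one, hp1, hp2]
    rw [d1, d2]; rfl
  simp only [z, map_sub, map_add, cocycleMap_single, v₀₁, v₀₃, v₁₂, v₂₃] at hz2
  norm_num at hz2

/-- **The generalized Bykovskii presentation fails for `ℤ[√3]`**, which is Euclidean and generated
by its units; the map `Byk_2(O) → St_2(K)` is not injective. -/
theorem result : ∃ (K : Type) (_ : Field K) (_ : NumberField K) (s : K),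
    s ^ 2 = 3 ∧ (∀ x : K, ∃ a b : ℚ, x = a + b * s) ∧
    IsEuclidean (𝓞 K) ∧ GeneratedByUnits (𝓞 K) ∧
    ¬ Function.Injective (bykMap (𝓞 K) K 1) ∧
    ¬ BykovskiiPresentationHolds (𝓞 K) K := by
  refine ⟨QSqrt3, inferInstance, inferInstance, ⟨0, 1⟩, ?_, ?_, isEuclidean, generatedByUnits,
    not_injective, fun h => not_injective (h 1).1⟩
  · apply QuadraticAlgebra.ext
    · simp [pow_two]; rfl
    · simp [pow_two]; rfl
  · intro x
    refine ⟨x.re, x.im, ?_⟩
    apply QuadraticAlgebra.ext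
    · simp
    · simp

end Pool.Agent.Results.MP_b7d0e6_al.SqrtThree
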